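import Pool.Agent.E8helper13.RD.Upper
import Pool.Agent.E8helper13.RD.Lower

/-!
# MP_78cba5_pr, Q1: `1/n` is a weak threshold for linear-size reconstruction in every dimension

The points are an arbitrary configuration `v : Fin n → ℝ^d`; every pair of labels is revealed independently
with probability `p` (`RandomDistances.prob`); `RandomDistances.Reconstructible v P U` says that the revealed
distances determine the configuration of `U` up to isometry.

The theorem: for every `d ≥ 1` the function `1/n` is a weak threshold for the existence of a reconstructible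
set of size `Ω(n)`.  In fact, for every `δ > 0` there is a constant `C` (depending on `d`, `δ` only) such that
for `p ≥ C/n` there is a reconstructible set of size at least `(1-δ)n` with probability at least `1 - 2^{-n}`,
and for `p ≤ c/n` with `c < 1` there is a reconstructible set of size at least `δn` with probability at most
`1/((1-c)δ²n)`.

Proof of the upper side.
* Every map `x` gives the set of its bad pairs (distance not preserved).  On a set `Y` of pairs these sets have
  at most `C(2|Y|+dn, dn)` traces (Rónyai–Babai–Ganapathy).  A double sampling argument, with weight `2^|T|` for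
  the trace `T`, shows that the probability that some `x` with at least `M` bad pairs is consistent with the
  revealed pairs is at most `(1-p)^M` times the mean number of traces on a `2p`-random set; so with
  probability `1 - e^{-2n}` every consistent `x` has at most `εn²` bad pairs.
* There is a flat `L` that contains almost all of the points and no proper subflat of which contains almost all
  the points of `L`; a map with few bad pairs is an isometry on almost all the points of `L`, and the rest `B` of
  the points of `L` is detached: for every `b ∈ B` the revealed neighbours of `b` in `L ∖ B` do not span `L`.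
* With probability `1 - e^{-2n}` there is no detached set of intermediate size; as unions of detached sets are
  detached, all the detached sets of the consistent maps lie in one small set.
-/

namespace Pool.Agent.Results.MP_78cba5_pr.WeakThresholdH13

open RandomDistances

/-- `1/n` is a weak threshold for the existence of a reconstructible set of linear size in dimension `d`:
below `c/n` with high probability every reconstructible set has size `o(n)`, above `C/n` with high probability
some reconstructible set has size at least `δn`; the constants `c`, `C`, `δ` depend only on `d`, and the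
estimates are uniform in the set of `n` distinct points. -/
def IsWeakThreshold (d : ℕ) : Prop :=
  ∃ c C : ℝ, 0 < c ∧ c ≤ C ∧
    (∀ δ η : ℝ, 0 < δ → 0 < η → ∃ n₀ : ℕ, ∀ n : ℕ, n₀ ≤ n →
      ∀ v : Fin n → EuclideanSpace ℝ (Fin d), Function.Injective v →
      ∀ p : ℝ, 0 ≤ p → p ≤ 1 → p ≤ c / n →
        prob n p (fun P => ∃ U : Finset (Fin n), Reconstructible v P U ∧ δ * n ≤ U.card) ≤ η) ∧
    (∃ δ : ℝ, 0 < δ ∧ ∀ η : ℝ, 0 < η → ∃ n₀ : ℕ, ∀ n : ℕ, n₀ ≤ n →
      ∀ v : Fin n → EuclideanSpace ℝ (Fin d), Function.Injective v →
      ∀ p : ℝ, C / n ≤ p → p ≤ 1 →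
        1 - η ≤ prob n p (fun P => ∃ U : Finset (Fin n), Reconstructible v P U ∧ δ * n ≤ U.card))

theorem result (d : ℕ) (hd : 1 ≤ d) :
    -- `1/n` is a weak threshold
    IsWeakThreshold d ∧
    -- below the threshold, for every constant `c < 1`
    (∀ c δ : ℝ, 0 ≤ c → c < 1 → 0 < δ → ∀ n : ℕ, 0 < n →
      ∀ v : Fin n → EuclideanSpace ℝ (Fin d), ∀ p : ℝ, 0 ≤ p → p ≤ 1 → p ≤ c / n →
        prob n p (fun P => ∃ U : Finset (Fin n), Reconstructible v P U ∧ δ * n ≤ U.card)
          ≤ 1 / ((1 - c) * δ ^ 2 * n)) ∧
    -- above the threshold almost all of the points are reconstructible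
    (∀ δ : ℝ, 0 < δ → ∃ C : ℝ, 0 < C ∧ ∃ n₀ : ℕ, ∀ n : ℕ, n₀ ≤ n →
      ∀ v : Fin n → EuclideanSpace ℝ (Fin d), ∀ p : ℝ, C / n ≤ p → p ≤ 1 →
        1 - (1 / 2) ^ n ≤ prob n p (fun P => ∃ U : Finset (Fin n), Reconstructible v P U ∧
          (1 - δ) * n ≤ U.card)) := by
  refine ⟨?_, ?_, ?_⟩
  · obtain ⟨C, hC, n₁, hup⟩ := E8helper13.RD.upper d (δ := 1 / 2) (by norm_num)
    refine ⟨min (1 / 2) C, C, lt_min (by norm_num) hC, min_le_right _ _, ?_, 1 / 2, by norm_num, ?_⟩
    · intro δ η hδ hη
      refine ⟨⌈1 / ((1 - 1 / 2) * δ ^ 2 * η)⌉₊ + 1, ?_⟩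
      intro n hn v _ p h0 h1 hp
      have hn0 : 0 < n := by omega
      have hn' : (0 : ℝ) < n := by exact_mod_cast hn0
      have hp' : p ≤ (1 / 2 : ℝ) / n := hp.trans (div_le_div_of_nonneg_right (min_le_left _ _) hn'.le)
      refine (E8helper13.RD.lower hd (c := 1 / 2) (by norm_num) (by norm_num) hδ hn0 v h0 h1 hp').trans ?_
      have h2 : 1 / ((1 - 1 / 2) * δ ^ 2 * η) ≤ n := by
        refine (Nat.le_ceil _).trans ?_
        exact_mod_cast (by omega : ⌈1 / ((1 - 1 / 2) * δ ^ 2 * η)⌉₊ ≤ n)
      rw [div_le_iff₀ (by positivity)] at h2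
      rw [div_le_iff₀ (by positivity)]
      calc (1 : ℝ) ≤ n * ((1 - 1 / 2) * δ ^ 2 * η) := h2
        _ = η * ((1 - 1 / 2) * δ ^ 2 * n) := by ring
    · intro η hη
      obtain ⟨n₂, hn₂⟩ := exists_pow_lt_of_lt_one hη (by norm_num : (1 / 2 : ℝ) < 1)
      refine ⟨max n₁ n₂, ?_⟩
      intro n hn v _ p hp hp1
      have h1 := hup n (le_trans (le_max_left _ _) hn) v p hp hp1
      have h2 : (1 / 2 : ℝ) ^ n ≤ (1 / 2) ^ n₂ :=
        pow_le_pow_of_le_one (by norm_num) (by norm_num) (le_trans (le_max_right _ _) hn)
      have h3 : (1 : ℝ) - 1 / 2 = 1 / 2 := by norm_num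
      rw [h3] at h1
      linarith
  · intro c δ hc0 hc hδ n hn v p h0 h1 hp
    exact E8helper13.RD.lower hd hc0 hc hδ hn v h0 h1 hp
  · intro δ hδ
    exact E8helper13.RD.upper d hδ

end Pool.Agent.Results.MP_78cba5_pr.WeakThresholdH13
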